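import Pool.Agent.H16.FK.TargetsB

/-!
# Board hci_modules: TDV
-/

set_option autoImplicit false

namespace Pool.Agent.H88.FK

open Set Pool.Agent.H75.HCI Pool.Agent.H16.FK

variable {C : Type} {kc ku k : ℕ}

lemma ev_bind {α β : Type} (f : Ultrafilter α) (m : α → Ultrafilter β) (P : β → Prop) :
    (∀ᶠ s in (f.bind m : Filter β), P s) ↔
      ∀ᶠ x in (f : Filter α), ∀ᶠ s in (m x : Filter β), P s := Iff.rfl

lemma ev_mapb {α β γ : Type} (f : Ultrafilter α) (g : α → β) (m : β → Ultrafilter γ)
    (P : γ → Prop) : (∀ᶠ s in ((f.map g).bind m : Filter γ), P s) ↔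
      ∀ᶠ x in (f : Filter α), ∀ᶠ s in (m (g x) : Filter γ), P s := Iff.rfl

/-- A finite set of values contains an almost sure value. -/
lemma ev_fin {α : Type} (V : Ultrafilter α) (f : α → C) (S : Set C) (hS : S.Finite)
    (h : ∀ x, f x ∈ S) : ∃ y, ∀ᶠ x in (V : Filter α), f x = y := by
  have h1 : (⋃ y ∈ S, {x | f x = y}) ∈ V := by
    have h2 : (⋃ y ∈ S, {x | f x = y}) = univ := by
      refine eq_univ_of_forall fun x => ?_
      rw [mem_iUnion₂]
      exact ⟨f x, h x, rfl⟩
    rw [h2]
    exact Filter.univ_mem
  obtain ⟨y, -, hy⟩ := (Ultrafilter.finite_biUnion_mem_iff hS).1 h1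
  exact ⟨y, hy⟩

lemma asv_spec {α : Type} (V : Ultrafilter α) (f : α → C) (d : C)
    (h : ∃ y, ∀ᶠ x in (V : Filter α), f x = y) : ∀ᶠ x in (V : Filter α), f x = asv V f d := by
  unfold asv
  rw [dif_pos h]
  exact h.choose_spec

/-- The distribution of the points with items in the program does not depend on the start state. -/
lemma indep (D : Dat kc ku k) (l : List (Idx (kc + ku) k)) (φ : List ℕ → Prop) :
    ∀ (σ : List (ℕ × ℕ × ℕ)) (st st' : Sta kc ku k), σ.Pairwise ilt →
      (∀ a ∈ σ, a.2.1 ≤ 2 ∧ (a.2.1 ≠ 1 → a.2.2 = 0)) →
      (∀ a ∈ σ, (a.1, 0, 0) ∈ σ ∨ st.j a.1 = st'.j a.1) →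
      (∀ p ∈ l, itp p ∈ σ ∨ st.pt p = st'.pt p) →
      ((∀ᶠ s in (run D σ st : Filter (Sta kc ku k)), φ (l.map s.pt)) ↔
        ∀ᶠ s in (run D σ st' : Filter (Sta kc ku k)), φ (l.map s.pt)) := by
  intro σ
  induction σ with
  | nil =>
    intro st st' _ _ _ hp
    change φ (l.map st.pt) ↔ φ (l.map st'.pt)
    have h : l.map st.pt = l.map st'.pt := by
      refine List.map_congr_left fun p hpl => ?_
      rcases hp p hpl with h | h
      · exact absurd h List.not_mem_nil
      · exact h
    rw [h]
  | cons it τ ih =>
    intro st st' hord hval hj hp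
    obtain ⟨hord1, hord2⟩ := List.pairwise_cons.1 hord
    have hv := hval it (List.mem_cons_self ..)
    have hval' : ∀ a ∈ τ, a.2.1 ≤ 2 ∧ (a.2.1 ≠ 1 → a.2.2 = 0) :=
      fun a ha => hval a (List.mem_cons_of_mem _ ha)
    obtain ⟨i, κ, m⟩ := it
    simp only at hv
    by_cases h0 : κ = 0
    · subst h0
      have hm : m = 0 := hv.2 (by omega)
      subst hm
      have e : ∀ s : Sta kc ku k, run D ((i, 0, 0) :: τ) s = (D.UU.map fun j =>
          (⟨Function.update s.j i j, fun p =>
            if p.1 = i then
              Sum.elim (fun b => Fin.addCases (fun b' => D.c j b') (fun _ => s.pt p) b)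
                (fun _ => s.pt p) p.2
            else s.pt p⟩ : Sta kc ku k)).bind (run D τ) := fun s => rfl
      rw [e, e, ev_mapb, ev_mapb]
      refine Filter.eventually_congr (Filter.Eventually.of_forall fun j => ?_)
      refine ih _ _ hord2 hval' ?_ ?_
      · intro a ha
        by_cases hai : a.1 = i
        · right
          simp only [hai, Function.update_self]
        · rcases hj a (List.mem_cons_of_mem _ ha) with h | h
          · rcases List.mem_cons.1 h with h | h
            · exact absurd (congrArg Prod.fst h) hai
            · exact Or.inl h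
          · right
            simp only [Function.update_of_ne hai]
            exact h
      · intro p hpl
        rcases hp p hpl with h | h
        · rcases List.mem_cons.1 h with h | h
          · right
            obtain ⟨pi, pz⟩ := p
            simp only [itp, Prod.mk.injEq] at h
            obtain ⟨h1, h2⟩ := h
            subst h1
            rcases pz with b | q
            · simp only [Sum.elim_inl] at h2
              by_cases hb : b.val < kc
              · simp only [if_true, Sum.elim_inl, Fin.addCases, hb, dif_pos]
              · rw [if_neg hb] at h2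
                simp at h2
            · simp at h2
          · exact Or.inl h
        · right
          obtain ⟨pi, pz⟩ := p
          simp only [h]
    · by_cases h1 : κ = 1
      · subst h1
        have hji : st.j i = st'.j i := by
          rcases hj (i, 1, m) (List.mem_cons_self ..) with h | h
          · rcases List.mem_cons.1 h with h | h
            · simp at h
            · have := hord1 _ h
              simp [ilt] at this
          · exact h
        have e : ∀ s : Sta kc ku k, run D ((i, 1, m) :: τ) s = ((D.V (s.j i)).map fun y =>
            (⟨s.j, fun p =>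
              if p.1 = i then
                Sum.elim (fun _ => s.pt p) (fun q => if q.1 = m then y q.2 else s.pt p) p.2
              else s.pt p⟩ : Sta kc ku k)).bind (run D τ) := fun s => rfl
        rw [e, e, ev_mapb, ev_mapb, hji]
        refine Filter.eventually_congr (Filter.Eventually.of_forall fun y => ?_)
        refine ih _ _ hord2 hval' ?_ ?_
        · intro a ha
          rcases hj a (List.mem_cons_of_mem _ ha) with h | h
          · rcases List.mem_cons.1 h with h | h
            · simp at h
            · exact Or.inl h
          · exact Or.inr h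
        · intro p hpl
          rcases hp p hpl with h | h
          · rcases List.mem_cons.1 h with h | h
            · right
              obtain ⟨pi, pz⟩ := p
              simp only [itp, Prod.mk.injEq] at h
              obtain ⟨h1, h2⟩ := h
              subst h1
              rcases pz with b | q
              · simp only [Sum.elim_inl] at h2
                by_cases hb : b.val < kc
                · rw [if_pos hb] at h2
                  simp at h2
                · rw [if_neg hb] at h2
                  simp at h2
              · simp only [Sum.elim_inr, Prod.mk.injEq, true_and] at h2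
                simp only [if_true, Sum.elim_inr, h2]
            · exact Or.inl h
          · right
            obtain ⟨pi, pz⟩ := p
            simp only [h]
      · have h2 : κ = 2 := by
          have := hv.1
          omega
        subst h2
        have hm : m = 0 := hv.2 (by omega)
        subst hm
        have hji : st.j i = st'.j i := by
          rcases hj (i, 2, 0) (List.mem_cons_self ..) with h | h
          · rcases List.mem_cons.1 h with h | h
            · simp at h
            · have := hord1 _ h
              simp [ilt] at this
          · exact h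
        have e : ∀ s : Sta kc ku k, run D ((i, 2, 0) :: τ) s = ((D.U (s.j i)).map fun y =>
            (⟨s.j, fun p =>
              if p.1 = i then
                Sum.elim (fun b => Fin.addCases (fun _ => s.pt p) (fun b' => y b') b)
                  (fun _ => s.pt p) p.2
              else s.pt p⟩ : Sta kc ku k)).bind (run D τ) := fun s => rfl
        rw [e, e, ev_mapb, ev_mapb, hji]
        refine Filter.eventually_congr (Filter.Eventually.of_forall fun y => ?_)
        refine ih _ _ hord2 hval' ?_ ?_
        · intro a ha
          rcases hj a (List.mem_cons_of_mem _ ha) with h | h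
          · rcases List.mem_cons.1 h with h | h
            · simp at h
            · exact Or.inl h
          · exact Or.inr h
        · intro p hpl
          rcases hp p hpl with h | h
          · rcases List.mem_cons.1 h with h | h
            · right
              obtain ⟨pi, pz⟩ := p
              simp only [itp, Prod.mk.injEq] at h
              obtain ⟨h1, h2⟩ := h
              subst h1
              rcases pz with b | q
              · simp only [Sum.elim_inl] at h2
                by_cases hb : b.val < kc
                · rw [if_pos hb] at h2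
                  simp at h2
                · simp only [if_true, Sum.elim_inl, Fin.addCases, hb]
                  rfl
              · simp at h2
            · exact Or.inl h
          · right
            obtain ⟨pi, pz⟩ := p
            simp only [h]

lemma box_prg (n s : ℕ) : Prg ∅ (box n s) := by
  refine ⟨?_, ?_, ?_, ?_⟩
  · unfold box
    rw [List.pairwise_flatMap]
    refine ⟨fun i _ => ?_, ?_⟩
    · rw [List.pairwise_append]
      refine ⟨?_, List.pairwise_singleton _ _, ?_⟩
      · rw [List.pairwise_cons]
        refine ⟨?_, ?_⟩
        · intro a ha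
          obtain ⟨m, -, rfl⟩ := List.mem_map.1 ha
          simp [ilt]
        · rw [List.pairwise_map]
          refine List.pairwise_lt_range.imp ?_
          intro a b hab
          simp [ilt, hab]
      · intro a ha b hb
        rw [List.mem_singleton] at hb
        subst hb
        rcases List.mem_cons.1 ha with rfl | ha
        · simp [ilt]
        · obtain ⟨m, -, rfl⟩ := List.mem_map.1 ha
          simp [ilt]
    · refine List.pairwise_lt_range.imp ?_
      intro i i' hii a ha b hb
      have h1 : ∀ (j : ℕ) (c : ℕ × ℕ × ℕ),
          c ∈ ((j, 0, 0) :: ((List.range s).map fun m => (j, 1, m)) ++ [(j, 2, 0)]) → c.1 = j := by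
        intro j c hc
        rcases List.mem_append.1 hc with hc | hc
        · rcases List.mem_cons.1 hc with rfl | hc
          · rfl
          · obtain ⟨m, -, rfl⟩ := List.mem_map.1 hc
            rfl
        · rw [List.mem_singleton] at hc
          subst hc
          rfl
      left
      rw [h1 _ _ ha, h1 _ _ hb]
      exact hii
  · intro a ha
    unfold box at ha
    rw [List.mem_flatMap] at ha
    obtain ⟨i, -, ha⟩ := ha
    rcases List.mem_append.1 ha with ha | ha
    · rcases List.mem_cons.1 ha with rfl | ha
      · simp
      · obtain ⟨m, -, rfl⟩ := List.mem_map.1 ha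
        simp
    · rw [List.mem_singleton] at ha
      subst ha
      simp
  · intro a _ b hb
    exact absurd hb (notMem_empty _)
  · intro a ha
    left
    unfold box at ha ⊢
    rw [List.mem_flatMap] at ha ⊢
    obtain ⟨i, hi, ha⟩ := ha
    refine ⟨i, hi, ?_⟩
    have h1 : a.1 = i := by
      rcases List.mem_append.1 ha with ha | ha
      · rcases List.mem_cons.1 ha with rfl | ha
        · rfl
        · obtain ⟨m, -, rfl⟩ := List.mem_map.1 ha
          rfl
      · rw [List.mem_singleton] at ha
        subst ha
        rfl
    rw [h1]
    exact List.mem_append_left _ (List.mem_cons_self ..)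

lemma bnd_le {kx k : ℕ} {l : List (Idx kx k)} {p : Idx kx k} (hp : p ∈ l) :
    p.1 < bnd l ∧ ∀ q, p.2 = .inr q → q.1 < bnd l := by
  have h1 : p.1 + 1 + Sum.elim (fun _ => 0) (fun q => q.1 + 1) p.2 ≤ bnd l :=
    List.single_le_sum (fun _ _ => Nat.zero_le _) _ (List.mem_map.2 ⟨p, hp, rfl⟩)
  refine ⟨by omega, fun q hq => ?_⟩
  rw [hq] at h1
  simp only [Sum.elim_inr] at h1
  omega

lemma itp_box {l : List (Idx (kc + ku) k)} {p : Idx (kc + ku) k} (hp : p ∈ l) :
    itp p ∈ box (bnd l) (bnd l) := by
  obtain ⟨h1, h2⟩ := bnd_le hp
  unfold box
  rw [List.mem_flatMap]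
  refine ⟨p.1, List.mem_range.2 h1, ?_⟩
  obtain ⟨i, z⟩ := p
  rcases z with b | q
  · by_cases hb : b.val < kc
    · simp [itp, hb]
    · simp [itp, hb]
  · have h3 := h2 q rfl
    simp [itp, h3]

theorem fin_val {M : List ℕ → C} (hM : FinL M) (n : ℕ) :
    {y | ∃ l : List ℕ, l.length ≤ n ∧ M l = y}.Finite := by
  have h : {y | ∃ l : List ℕ, l.length ≤ n ∧ M l = y} ⊆
      ⋃ i ∈ Iic n, {y | ∃ l : List ℕ, l.length = i ∧ M l = y} := by
    rintro y ⟨l, h1, h2⟩
    rw [mem_iUnion₂]
    exact ⟨l.length, h1, l, rfl, h2⟩
  exact ((finite_Iic n).biUnion fun i _ => hM i).subset h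

theorem pf_TDV (hDIS : T_DIS) : T_TDV := by
  intro C kc ku k M D hM l σ hσ hl st w
  set v := TD M D l w with hv
  have h1 : ∀ᶠ s in (run D (box (bnd l) (bnd l)) st0 : Filter (Sta kc ku k)),
      M (sel (D.z ++ l.map s.pt) w) = v := by
    rw [hv]
    refine asv_spec _ _ _ ?_
    refine ev_fin _ _ _ (fin_val hM w.length) fun s => ?_
    refine ⟨_, ?_, rfl⟩
    unfold sel
    exact List.length_filterMap_le _ _
  have h2 := (hDIS kc ku k D ∅ st0 st0 l id (box (bnd l) (bnd l)) σ
    ⟨fun p _ => rfl, fun p _ q _ => Iff.rfl, fun p _ q _ _ u u' v v' hu hv hu' hv' => by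
      rw [id, hu] at hu'
      rw [id, hv] at hv'
      rw [Sum.inr.inj hu', Sum.inr.inj hv']⟩
    (box_prg _ _) hσ (fun p _ h => absurd h (notMem_empty _))
    (fun c h => absurd h (notMem_empty _)) (fun p hp _ => ⟨itp_box hp, hl p hp⟩)
    (fun p _ h => absurd h (notMem_empty _))
    (fun p _ _ => notMem_empty _) (fun a => M (sel (D.z ++ a) w) = v)).1 h1
  rw [List.map_id] at h2
  refine (indep D l (fun a => M (sel (D.z ++ a) w) = v) σ st0 st hσ.ord hσ.val ?_ ?_).1 h2
  · intro a ha
    rcases hσ.sta a ha with h | h
    · exact Or.inl h
    · exact absurd h (notMem_empty _)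
  · intro p hp
    exact Or.inl (hl p hp)

end Pool.Agent.H88.FK
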