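import Pool.Agent.H16.FK.TargetsA

/-!
# Board hci_modules: TOPC
-/

set_option autoImplicit false

namespace Pool.Agent.H88.FK

open Set Pool.Agent.H75.HCI Pool.Agent.H16.FK

theorem pf_TOPC (h1 : T_TPX) (h2 : T_LR) (h3 : T_RB3) (h4 : T_LKN) (h5 : T_HBL) (h6 : T_CRS) :
    T_TOPC := by
  intro kx k L T cl hAX hL hk hC hN hcl
  have hP := h1 kx k L T hAX
  have hHB := h5 kx k L T hAX hL
  have hBG : ∀ J, BG (TP T) J ↔ BG T J := by
    intro J
    unfold BG
    simp only [hHB]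
  have hcl' : ClB (TP T) cl := by
    unfold ClB at hcl ⊢
    simp only [hBG]
    exact hcl
  have hC' : Coll (TP T) := by
    intro i0 N
    obtain ⟨s, s', g, hs, hs', hN1, hN2, he, hF, hI, hf⟩ := hC i0 (max N 1)
    exact ⟨s, s', g, hs, hs', fun i => le_trans (le_max_left _ _) (hN1 i),
      fun i => le_trans (le_max_left _ _) (hN2 i), he, hF,
      h2 kx k L T s s' g hAX hk (fun i => le_trans (le_max_right _ _) (hN1 i)) hI, hf⟩
  obtain ⟨In, hIn, hS⟩ := h3 kx k _ (TP T) cl hP hk (h4 kx k L T hAX hN) hcl' hC'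
  exact ⟨In, hIn, h6 kx k L T cl _ hS⟩

end Pool.Agent.H88.FK
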